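import Pool.Agent.L0h4.TA.Core
import Pool.Agent.L0h23.KD.TR
import Pool.Agent.L0h74.KD.Fin

/-!
# The density of the `D` whose matrix is not singular
-/

set_option autoImplicit false
set_option linter.unusedSectionVars false

open scoped Classical

namespace Pool.Agent.L0h4.TA

open Pool.Agent.Y698 Pool.Agent.Y698.SG Pool.Agent.L0h4.TW
open Pool.Agent.W192.HK

/-- a choice of normalised generators -/
lemma exists_w : ∃ w : ℕ → RR, ∀ p, SpP p → nR (w p) = p ∧ N1 (w p) := by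
  refine ⟨fun p => if hp : SpP p then (Pool.Agent.L0h75.exists_cho hp).choose else 0, ?_⟩
  intro p hp
  beta_reduce
  rw [dif_pos hp]
  exact (Pool.Agent.L0h75.exists_cho hp).choose_spec

/-- **the density** -/
theorem dens : Filter.Tendsto
    (fun X : ℕ => (((Finset.Icc 1 X).filter fun D => Adm D ∧ (mD D).det ≠ 0).card : ℝ) /
      (((Finset.Icc 1 X).filter fun D => Adm D).card : ℝ))
    Filter.atTop (nhds ((∏' i : ℕ, (1 - (1 / 2 : ℝ) ^ (2 * i + 1))) / 2)) := by
  obtain ⟨w, hw⟩ := exists_w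
  have h := Pool.Agent.L0h74.KD.Fin.t_DEN (fun p q => lg (sy (w q) (w p)))
    (fun p => lg (e7 (w p))) (Pool.Agent.L0h23.KD.recA hw)
  unfold Pool.Agent.Y703.CQ.c2 at h
  refine h.congr fun X => congrArg₂ (fun a b : ℕ => (a : ℝ) / (b : ℝ)) ?_ ?_
  · refine congrArg Finset.card (Finset.ext fun D => ?_)
    rw [Finset.mem_filter, Finset.mem_filter]
    refine and_congr_right fun _ => ?_
    constructor
    · rintro ⟨h1, h2, h3, h4⟩
      have hA : Adm D := ⟨h1, h2, h3⟩
      have hd := hA.dt (ϖ := w) fun p hp => hw p (hA.p p hp)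
      rw [← ns_iff hd hA.prod, Pool.Agent.L0h23.KD.tr hd, union_QP]
      exact ⟨hA, h4⟩
    · rintro ⟨hA, h4⟩
      have hd := hA.dt (ϖ := w) fun p hp => hw p (hA.p p hp)
      rw [← ns_iff hd hA.prod, Pool.Agent.L0h23.KD.tr hd, union_QP] at h4
      exact ⟨hA.sf, hA.m4, hA.n7, h4⟩
  · refine congrArg Finset.card (Finset.ext fun D => ?_)
    rw [Finset.mem_filter, Finset.mem_filter]
    refine and_congr_right fun _ => ?_
    exact ⟨fun h1 => ⟨h1.1, h1.2.1, h1.2.2⟩, fun h1 => ⟨h1.sf, h1.m4, h1.n7⟩⟩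

end Pool.Agent.L0h4.TA
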