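import Pool.Agent.L0h4.TW.Val

/-!
# The matrix of `D` over the field with two elements
-/

set_option autoImplicit false
set_option linter.unusedSectionVars false

namespace Pool.Agent.L0h4.TA

open Pool.Agent.Y698 Pool.Agent.Y698.SG Pool.Agent.L0h4.TW
open Pool.Agent.W192.HK

/-- the normalised prime elements which divide `D`: one generator `π`, with `π ≡ 1` modulo `aR ^ 2`, of
each of the prime ideals which divide `D` (for odd `D ≠ 0`) -/
def pset (D : ℕ) : Set RR := {π | D ≠ 0 ∧ Prime π ∧ π ∣ (D : RR) ∧ aR ^ 2 ∣ π - 1}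

lemma nR_dvd_of {x y : RR} (h : x ∣ y) : nR x ∣ nR y := by
  obtain ⟨z, rfl⟩ := h
  rw [nR_mul]
  exact Dvd.intro _ rfl

lemma bound_of_nR {x : RR} {B : ℤ} (hB : 0 ≤ B) (h : nR x ≤ B ^ 2) :
    (-(2 * B) ≤ cX x ∧ cX x ≤ 2 * B) ∧ (-B ≤ cY x ∧ cY x ≤ B) := by
  unfold nR at h
  have h1 : (2 * cX x + cY x) ^ 2 + 7 * cY x ^ 2 ≤ 4 * B ^ 2 := by nlinarith
  have h2 : cY x ^ 2 ≤ B ^ 2 := by nlinarith [sq_nonneg (2 * cX x + cY x), sq_nonneg (cY x)]
  have h3 : (2 * cX x + cY x) ^ 2 ≤ (2 * B) ^ 2 := by nlinarith [sq_nonneg (cY x)]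
  have h4 := abs_le_of_sq_le_sq' h2 hB
  have h5 := abs_le_of_sq_le_sq' h3 (by omega)
  omega

theorem pset_finite (D : ℕ) : (pset D).Finite := by
  by_cases hD : D = 0
  · have : pset D = ∅ := by
      ext x
      simp [pset, hD]
    rw [this]
    exact Set.finite_empty
  · have h0 : Set.InjOn (fun x : RR => (cX x, cY x)) (pset D) := by
      intro x _ y _ hxy
      simp only [Prod.mk.injEq] at hxy
      exact RR_ext hxy.1 hxy.2
    refine Set.Finite.of_finite_image ?_ h0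
    refine Set.Finite.subset ((Set.finite_Icc (-(2 * (D : ℤ))) (2 * D)).prod
      (Set.finite_Icc (-(D : ℤ)) D)) ?_
    rintro _ ⟨x, ⟨-, -, hx, -⟩, rfl⟩
    have h1 : nR x ≤ (D : ℤ) ^ 2 := by
      have h2 := nR_dvd_of hx
      rw [nR_nat] at h2
      exact Int.le_of_dvd (by positivity) h2
    obtain ⟨h3, h4⟩ := bound_of_nR (by positivity) h1
    exact ⟨h3, h4⟩

noncomputable instance inst_pset (D : ℕ) : Fintype (pset D) := (pset_finite D).fintype

open Classical in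
/-- the quadratic residue symbol: `0` if `x` is a square modulo `y`, `1` if it is not -/
noncomputable def nsq (x y : RR) : ZMod 2 := if ∃ z : RR, y ∣ x - z ^ 2 then 0 else 1

open Classical in
/-- the matrix of `D` -/
noncomputable def mD (D : ℕ) : Matrix (pset D) (pset D) (ZMod 2) := Matrix.of fun i j =>
  if i = j then nsq i fR + ∑ l ∈ Finset.univ.erase i, nsq i l else nsq i j

lemma nsq_sy {x y : RR} (h : x ∉ sp y) : nsq x y = lg (sy y x) := by
  classical
  have key : IsSquare (Ideal.Quotient.mk (sp y) x) ↔ ∃ z : RR, y ∣ x - z ^ 2 := by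
    constructor
    · rintro ⟨t, ht⟩
      obtain ⟨z, rfl⟩ := Ideal.Quotient.mk_surjective t
      refine ⟨z, ?_⟩
      rw [← Ideal.mem_span_singleton, ← Ideal.Quotient.eq, ht, map_pow, pow_two]
    · rintro ⟨z, hz⟩
      rw [← Ideal.mem_span_singleton, ← Ideal.Quotient.eq, map_pow, pow_two] at hz
      exact ⟨_, hz⟩
  unfold nsq sy
  rw [if_neg h]
  by_cases h1 : ∃ z : RR, y ∣ x - z ^ 2
  · rw [if_pos h1, if_pos (key.2 h1), lg_one]
  · rw [if_neg h1, if_neg (fun h2 => h1 (key.1 h2)), lg_neg_one]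

lemma N1_dvd {x : RR} : aR ^ 2 ∣ x - 1 ↔ N1 x := by
  constructor
  · rintro ⟨u, hu⟩
    exact ⟨u, by linear_combination hu⟩
  · rintro ⟨u, hu⟩
    exact ⟨u, by linear_combination hu⟩

lemma N1_uniq {x y : RR} (hx : N1 x) (hy : N1 y) (hox : nR x % 2 = 1) (h : x = y ∨ x = -y) :
    x = y := by
  rcases h with h | h
  · exact h
  · exfalso
    have hoy : nR y % 2 = 1 := by rw [h, nR_neg] at hox; exact hox
    have h1 := (N1_iff hox).1 hx
    have h2 := (N1_iff hoy).1 hy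
    rw [h, (cXY_neg y).1] at h1
    omega

lemma prime_dvd_pm {x y : RR} (hx : Prime x) (hy : Prime y) (h : x ∣ y) : x = y ∨ x = -y := by
  have h1 : Associated x y := hx.associated_of_dvd hy h
  obtain ⟨u, hu⟩ := h1
  rcases isUnit_iff.1 u.isUnit with h2 | h2
  · left; rw [h2, mul_one] at hu; exact hu
  · right; rw [h2] at hu; linear_combination -hu

section
variable {Q P : Finset ℕ} {ϖ : ℕ → RR}

lemma Dt_mem (h : Dt Q P ϖ) {D : ℕ} (hD : ∏ q ∈ Q ∪ P, q = D) {i : ℕ × Bool} (hi : i ∈ ix Q P) :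
    pfx Q ϖ i ∈ pset D := by
  have hfx := h.fx.pd i hi
  refine ⟨?_, hfx.pr, ?_, N1_dvd.2 hfx.n1⟩
  · rw [← hD]
    exact Finset.prod_ne_zero_iff.2 fun q hq => (h.od q hq).pr.ne_zero
  · have h1 : (i.1 : RR) ∣ (D : RR) := by
      have h2 : i.1 ∣ D := by
        rw [← hD]
        refine Finset.dvd_prod_of_mem _ ?_
        rw [Finset.mem_union]
        rw [TW.mem_ix] at hi
        tauto
      exact_mod_cast (Nat.cast_dvd_cast h2)
    refine dvd_trans ?_ h1
    rcases h.kind hi with h2 | h2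
    · rw [h2.2.eq]
      exact (sg_unit i.1).mul_left_dvd.2 dvd_rfl
    · have h3 := mul_cj (pfx Q ϖ i)
      rw [h2.2.nR] at h3
      push_cast at h3
      rw [← h3]
      exact dvd_mul_right _ _

lemma Dt_inj (h : Dt Q P ϖ) {i j : ℕ × Bool} (hi : i ∈ ix Q P) (hj : j ∈ ix Q P)
    (hij : pfx Q ϖ i = pfx Q ϖ j) : i = j := by
  by_contra hne
  apply h.fx.ne i hi j hj hne
  rw [hij]
  exact Ideal.mem_span_singleton_self _

lemma Dt_surj (h : Dt Q P ϖ) {D : ℕ} (hD : ∏ q ∈ Q ∪ P, q = D) {x : RR} (hx : x ∈ pset D) :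
    ∃ i ∈ ix Q P, pfx Q ϖ i = x := by
  obtain ⟨hD0, hpr, hdv, hn⟩ := hx
  rw [N1_dvd] at hn
  have h1 : x ∣ ∏ q ∈ Q ∪ P, (q : RR) := by
    have e : ((∏ q ∈ Q ∪ P, q : ℕ) : RR) = ∏ q ∈ Q ∪ P, (q : RR) := by push_cast; rfl
    rw [← e, hD]
    exact hdv
  obtain ⟨q, hq, hxq⟩ := (Prime.dvd_finsetProd_iff hpr _).1 h1
  -- the norm is odd
  have key : ∀ i ∈ ix Q P, x ∣ pfx Q ϖ i → pfx Q ϖ i = x := by
    intro i hi hd
    have h2 := h.fx.pd i hi
    have h3 := prime_dvd_pm hpr h2.pr hd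
    have h4 : nR (pfx Q ϖ i) % 2 = 1 := by
      rcases h.kind hi with h5 | h5
      · rw [h5.2.nR]
        have := sq_mod h5.2.inp.odd
        omega
      · rw [h5.2.nR]
        have := h5.2.odd
        omega
    refine N1_uniq h2.n1 hn h4 ?_
    rcases h3 with h3 | h3
    · exact Or.inl h3.symm
    · exact Or.inr (by rw [h3, neg_neg])
  rcases Finset.mem_union.1 hq with h2 | h2
  · refine ⟨(q, false), TW.mem_ix.2 (Or.inl ⟨h2, rfl⟩), key _ (TW.mem_ix.2 (Or.inl ⟨h2, rfl⟩)) ?_⟩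
    have e : pfx Q ϖ (q, false) = sg q * (q : RR) := if_pos h2
    rw [e]
    exact Dvd.dvd.mul_left hxq _
  · have e1 : pfx Q ϖ (q, false) = ϖ q := by
      unfold pfx
      rw [if_neg (fun h1 => h.disj h1 h2), if_neg (by simp)]
    have e2 : pfx Q ϖ (q, true) = sg q * cj (ϖ q) := by
      unfold pfx
      rw [if_neg (fun h1 => h.disj h1 h2), if_pos rfl]
    have h3 := mul_cj (ϖ q)
    rw [(h.cho q h2).1] at h3
    push_cast at h3
    rw [← h3] at hxq
    rcases hpr.dvd_or_dvd hxq with h4 | h4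
    · refine ⟨(q, false), TW.mem_ix.2 (Or.inr (Or.inl ⟨h2, rfl⟩)),
        key _ (TW.mem_ix.2 (Or.inr (Or.inl ⟨h2, rfl⟩))) ?_⟩
      rw [e1]
      exact h4
    · refine ⟨(q, true), TW.mem_ix.2 (Or.inr (Or.inr ⟨h2, rfl⟩)),
        key _ (TW.mem_ix.2 (Or.inr (Or.inr ⟨h2, rfl⟩))) ?_⟩
      rw [e2]
      exact Dvd.dvd.mul_left h4 _

/-- the bijection of the two sets of indices -/
noncomputable def eix (h : Dt Q P ϖ) {D : ℕ} (hD : ∏ q ∈ Q ∪ P, q = D) : ix Q P ≃ pset D :=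
  Equiv.ofBijective (fun i => ⟨pfx Q ϖ i.1, Dt_mem h hD i.2⟩) ⟨fun i j hij =>
    Subtype.ext (Dt_inj h i.2 j.2 (congrArg Subtype.val hij)), fun x => by
      obtain ⟨i, hi, e⟩ := Dt_surj h hD x.2
      exact ⟨⟨i, hi⟩, Subtype.ext e⟩⟩

lemma eix_coe (h : Dt Q P ϖ) {D : ℕ} (hD : ∏ q ∈ Q ∪ P, q = D) (i : ix Q P) :
    ((eix h hD i : pset D) : RR) = pfx Q ϖ i.1 := rfl

/-- **the two forms of the determinant** -/
theorem gd_mD (h : Dt Q P ϖ) {D : ℕ} (hD : ∏ q ∈ Q ∪ P, q = D) :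
    gd (mc (pfx Q ϖ)) (mr (pfx Q ϖ)) (ix Q P) = (mD D).det := by
  classical
  rw [← Matrix.det_submatrix_equiv_self (eix h hD) (mD D)]
  unfold gd
  congr 1
  ext i j
  rw [Matrix.submatrix_apply]
  unfold mD
  rw [Matrix.of_apply, Matrix.of_apply]
  have hoff : ∀ i j : ix Q P, i ≠ j →
      nsq (eix h hD i : RR) (eix h hD j : RR) = mr (pfx Q ϖ) i j := by
    intro i j hij
    have h1 := h.fx.ne i.1 i.2 j.1 j.2 (fun h2 => hij (Subtype.ext h2))
    rw [eix_coe, eix_coe, nsq_sy h1]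
    rfl
  by_cases hij : i = j
  · rw [if_pos hij, if_pos (by rw [hij])]
    have h7 : nsq (eix h hD i : RR) fR = mc (pfx Q ϖ) i := by
      rw [eix_coe]
      have h8 : pfx Q ϖ i.1 ∉ sp fR := by
        have h9 := h.fx7.ne i.1 (Finset.mem_insert_of_mem i.2) (7, false)
          (Finset.mem_insert_self _ _) (fun h10 => h.ix7 (h10 ▸ i.2))
        rw [h.pf i.2, pf7_o] at h9
        have h11 : sp (-fR) = sp fR := Ideal.span_singleton_neg fR
        rwa [h11] at h9
      rw [nsq_sy h8]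
      unfold mc
      rw [← sy_seven]
      have h11 : sp (-fR) = sp fR := Ideal.span_singleton_neg fR
      rw [sy_congr h11]
    rw [h7]
    congr 1
    have e1 : ∑ k ∈ (ix Q P).erase i.1, mr (pfx Q ϖ) i.1 k =
        ∑ k ∈ (Finset.univ : Finset (ix Q P)).erase i, mr (pfx Q ϖ) i.1 k.1 := by
      refine Finset.sum_nbij' (i := fun k => if hk : k ∈ ix Q P then (⟨k, hk⟩ : ix Q P) else i)
        (j := fun k => k.1) ?_ ?_ ?_ ?_ ?_
      · intro k hk
        rw [Finset.mem_erase] at hk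
        rw [dif_pos hk.2, Finset.mem_erase]
        exact ⟨fun h1 => hk.1 (congrArg Subtype.val h1), Finset.mem_univ _⟩
      · intro k hk
        rw [Finset.mem_erase] at hk ⊢
        exact ⟨fun h1 => hk.1 (Subtype.ext h1), k.2⟩
      · intro k hk
        rw [Finset.mem_erase] at hk
        rw [dif_pos hk.2]
      · intro k _
        rw [dif_pos k.2]
      · intro k hk
        rw [Finset.mem_erase] at hk
        rw [dif_pos hk.2]
    rw [e1]
    refine Finset.sum_equiv (eix h hD) ?_ ?_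
    · intro k
      rw [Finset.mem_erase, Finset.mem_erase]
      refine ⟨fun h1 => ⟨fun h2 => h1.1 ((eix h hD).injective h2), Finset.mem_univ _⟩,
        fun h1 => ⟨fun h2 => h1.1 (by rw [h2]), Finset.mem_univ _⟩⟩
    · intro k hk
      rw [Finset.mem_erase] at hk
      exact (hoff i k (fun h1 => hk.1 h1.symm)).symm
  · rw [if_neg hij, if_neg (fun h1 => hij ((eix h hD).injective h1))]
    exact (hoff i j hij).symm

theorem ns_iff (h : Dt Q P ϖ) {D : ℕ} (hD : ∏ q ∈ Q ∪ P, q = D) :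
    NonSing Q P ϖ ↔ (mD D).det ≠ 0 := by
  unfold NonSing
  rw [gd_mD h hD]

end

end Pool.Agent.L0h4.TA
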