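import Pool.Agent.L0h4.TA.Finx
import Pool.Agent.L0h4.TA.Mat
import Pool.Agent.L0h75.ChoEx
import Pool.Agent.R428.Q0.Cls

/-!
# The theorem for a single `D`
-/

set_option autoImplicit false
set_option linter.unusedSectionVars false

namespace Pool.Agent.L0h4.TA

open Pool.Agent.Y698 Pool.Agent.Y698.SG Pool.Agent.L0h4.TW
open NumberField NumberField.InfinitePlace IsDedekindDomain WithZero WeierstrassCurve
open Pool.Agent.W189.NF
open Pool.Agent.TH841.SH.D (Pt act)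
open Pool.Agent.TH841.NF.D (Sha shaCoc)

/-- the numbers `D` -/
structure Adm (D : ℕ) : Prop where
  sf : Squarefree D
  m4 : D % 4 = 1
  n7 : ¬ 7 ∣ D

open Classical in
/-- the prime factors of `D` which are inert in `ℚ(√-7)` -/
noncomputable def QD (D : ℕ) : Finset ℕ := D.primeFactors.filter fun p => ¬ IsSquare (-7 : ZMod p)

open Classical in
/-- the prime factors of `D` which split in `ℚ(√-7)` -/
noncomputable def PD (D : ℕ) : Finset ℕ := D.primeFactors.filter fun p => IsSquare (-7 : ZMod p)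

lemma union_QP (D : ℕ) : QD D ∪ PD D = D.primeFactors := by
  classical
  unfold QD PD
  rw [Finset.union_comm]
  exact Finset.filter_union_filter_not_eq _ _

lemma Adm.odd {D : ℕ} (h : Adm D) {p : ℕ} (hp : p ∈ D.primeFactors) : p % 2 = 1 := by
  have h1 := Nat.dvd_of_mem_primeFactors hp
  have h2 := h.m4
  by_contra h3
  have h4 : 2 ∣ p := by omega
  have h5 := h4.trans h1
  omega

open Classical in
lemma Adm.q {D : ℕ} (h : Adm D) : ∀ q ∈ QD D, InP q := fun q hq =>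
  ⟨Nat.prime_of_mem_primeFactors (Finset.mem_filter.1 hq).1, h.odd (Finset.mem_filter.1 hq).1,
    (Finset.mem_filter.1 hq).2⟩

open Classical in
lemma Adm.p {D : ℕ} (h : Adm D) : ∀ p ∈ PD D, SpP p := fun q hq =>
  ⟨Nat.prime_of_mem_primeFactors (Finset.mem_filter.1 hq).1, h.odd (Finset.mem_filter.1 hq).1,
    fun h7 => h.n7 (h7 ▸ Nat.dvd_of_mem_primeFactors (Finset.mem_filter.1 hq).1),
    (Finset.mem_filter.1 hq).2⟩

/-- a choice of generators exists -/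
lemma exists_choice {P : Finset ℕ} (h : ∀ p ∈ P, SpP p) : ∃ ϖ : ℕ → RR, Cho ϖ P := by
  classical
  refine ⟨fun p => if hp : SpP p then (Pool.Agent.L0h75.exists_cho hp).choose else 0, ?_⟩
  intro p hp
  beta_reduce
  rw [dif_pos (h p hp)]
  exact (Pool.Agent.L0h75.exists_cho (h p hp)).choose_spec

lemma Adm.dt {D : ℕ} (h : Adm D) {ϖ : ℕ → RR} (hc : Cho ϖ (PD D)) : Dt (QD D) (PD D) ϖ :=
  ⟨h.q, h.p, hc⟩

lemma Adm.prod {D : ℕ} (h : Adm D) : ∏ q ∈ QD D ∪ PD D, q = D := by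
  rw [union_QP, Nat.prod_primeFactors_of_squarefree h.sf]

/-- the number of the prime ideals which divide `D` -/
lemma card_pset {D : ℕ} (h : Adm D) : (QD D).card + 2 * (PD D).card = Fintype.card (pset D) := by
  classical
  obtain ⟨ϖ, hc⟩ := exists_choice h.p
  have hd := h.dt hc
  rw [← Fintype.card_congr (eix hd h.prod), Fintype.card_coe, card_ixX hd.dis]

/-- an auxiliary prime number -/
lemma exists_aux (D : ℕ) (hD : D ≠ 0) : ∃ r, Inq r ∧ ¬ r ∣ D := by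
  have h1 : IsUnit ((5 : ℕ) : ZMod 28) := by
    rw [ZMod.isUnit_iff_coprime]
    norm_num
  obtain ⟨r, hr, hp, h2⟩ := Nat.forall_exists_prime_gt_and_eq_mod h1 D
  have h3 : r % 28 = 5 := by
    have := (ZMod.natCast_eq_natCast_iff' r 5 28).1 h2
    simpa using this
  refine ⟨r, ⟨hp, by omega, ?_⟩, fun h => ?_⟩
  · rw [Pool.Agent.R428.Q0.sq7_iff hp (by omega)]
    omega
  · exact absurd (Nat.le_of_dvd (Nat.pos_of_ne_zero hD) h) (by omega)

lemma rat_all (k : ℚ) : ∃ u : ℚ, k = u := ⟨k, (Rat.cast_id k).symm⟩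

/-- **the theorem for `D`** -/
theorem coreX {D : ℕ} (h : Adm D) {j : ℕ} (hj' : D = 1 + 4 * j) :
    (∀ v : HeightOneSpectrum (𝓞 ℚ), MinimalAt (AX ℚ j) v) ∧
    (∃ t : ℕ, Odd t ∧ tnum (AX ℚ j) = 2 * t) ∧
    ∏ᶠ v : HeightOneSpectrum (𝓞 ℚ), tam (AX ℚ j) v = 2 ^ (1 + Fintype.card (pset D)) ∧
    ((mD D).det ≠ 0 → Finite (AX ℚ j).toAffine.Point ∧
      ∀ (n : ℕ) (x : Sha (AX ℚ j)), 2 ^ n • x = 0 → x = 0) ∧
    ∃ Λ : ℂ → ℂ, Differentiable ℂ Λ ∧ (∀ s : ℂ, 2 < s.re → Λ s = (AX ℚ j).LSeries s) ∧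
      ∀ (Γ : Type) [LinearOrderedCommGroupWithZero Γ] (v : Valuation ℂ Γ), v 2 < 1 →
        v (quoT ℚ j (Λ 1)) ≤ 1 ∧ (v (quoT ℚ j (Λ 1)) = 1 ↔ (mD D).det ≠ 0) := by
  classical
  obtain ⟨r, hr, hrD⟩ := exists_aux D h.sf.ne_zero
  have hrf : Fact r.Prime := ⟨hr.pr⟩
  have hM : IsCyclotomicExtension {r} ℚ (CyclotomicField r ℚ) := cyc_inst r
  obtain ⟨ϖ, hc⟩ := exists_choice h.p
  have hd := h.dt hc
  have hj : ∏ q ∈ QD D ∪ PD D, q = 1 + 4 * j := h.prod.trans hj'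
  have hn : Module.finrank ℚ ℚ = 2 ^ 0 := by rw [Module.finrank_self, pow_zero]
  have hrS : r ∉ QD D ∪ PD D := by
    rw [union_QP]
    exact fun h1 => hrD (Nat.dvd_of_mem_primeFactors h1)
  have hS' : ∀ q ∈ QD D ∪ PD D, TW.Od q ∧ q ≠ r := fun q hq =>
    ⟨hd.od q hq, fun h1 => hrS (h1 ▸ hq)⟩
  have hns := ns_iff hd h.prod
  refine ⟨fun v => minimal_EX (CyclotomicField r ℚ) ℚ hr.ns hS' hj v,
    tnum_AX (CyclotomicField r ℚ) ℚ hr.ns j, ?_, ?_, ?_⟩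
  · rw [← card_pset h]
    exact tam_prodX (CyclotomicField r ℚ) ℚ hn hr (fun q hq => ⟨h.q q hq,
      (hS' q (Finset.mem_union_left _ hq)).2⟩) h.p hj
  · intro h1
    rw [← hns] at h1
    exact ⟨TD.mw_finiteX ℚ rat_all hd h1 hj, fun n x hx => TD.sha_powX ℚ rat_all hd h1 hj x n hx⟩
  · obtain ⟨Λ, h1, h2, h3⟩ := level0X (CyclotomicField r ℚ) ℚ hn hr hd hrS hj
    refine ⟨Λ, h1, h2, fun Γ _ v hv => ?_⟩
    rw [← hns]
    exact h3 Γ v hv

end Pool.Agent.L0h4.TA
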