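import Pool.Agent.L0h4.TA.Azx
import Pool.Agent.R428.Q0.An

/-!
# The L-function of the twists over a field of degree one
-/

set_option autoImplicit false
set_option linter.unusedSectionVars false

namespace Pool.Agent.L0h4.TA

open Pool.Agent.Y698 Pool.Agent.Y698.SG Pool.Agent.L0h4.TW

open NumberField IsDedekindDomain WeierstrassCurve Pool.Agent.W189.NF IsCyclotomicExtension.Rat
open Pool.Agent.H921R2.TatePole Pool.Agent.H82R3.EK
open H667R3 Pool.Agent.W192.HK Pool.Agent.TH936.CM Pool.Agent.TH936.PU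
open W165.CE (pw pw_eq pw_luc)

section
variable {r : ℕ} [hr : Fact r.Prime] (M : Type) [Field M] [NumberField M]
  [hM : IsCyclotomicExtension {r} ℚ M] (K : Type) [Field K] [NumberField K] [Algebra K M]

include hM in
open Classical in
/-- the Euler product is the L-series of the curve -/
theorem lseries_oneX (hn : Module.finrank ℚ K = 2 ^ 0) (hir : Inq r) {S : Finset ℕ}
    (hd : ∀ q ∈ S, Od q) (hrS : r ∉ S) {j : ℕ}
    (hj : ∏ q ∈ S, q = 1 + 4 * j) {F : ℂ → ℂ}
    (g2 : ∀ z : ℂ, 3 / 2 < z.re → HasProd (fun p : Nat.Primes =>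
      (1 - bc p * ((∏ q ∈ S, qch q (p : ℕ)) * ((p : ℕ) : ℂ) ^ (-z)) +
      ec p * ((∏ q ∈ S, qch q (p : ℕ)) * ((p : ℕ) : ℂ) ^ (-z)) ^ 2)⁻¹) (F z)) :
    ∀ s : ℂ, 2 < s.re → F s = (EX K (j : K)).LSeries s := by
  have hG : IsGalois ℚ K := isGalK r K (M := M)
  have h7 : r ≠ 7 := by
    intro h
    apply hir.not_seven
    rw [h]
    norm_num
  have hcard : Nat.card (XK r M K) = 1 := by rw [card_XK, hn, pow_zero]
  have hfin : Finite (XK r M K) := Nat.finite_of_card_ne_zero (by rw [hcard]; exact one_ne_zero)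
  let _ : Fintype (XK r M K) := Fintype.ofFinite _
  have hsub : Subsingleton (XK r M K) := (Nat.card_eq_one_iff_unique.1 hcard).1
  intro s hs
  have hs' : 3 / 2 < s.re := by linarith
  have h1 : HasProd (fun q : Nat.Primes => ∏ χ : XK r M K,
      EF (cc (χ : DirichletCharacter ℂ r) q * ∏ p ∈ S, qch p (q : ℕ)) s q) (F s) := by
    convert g2 s hs' using 2 with q
    rw [Fintype.prod_subsingleton _ (1 : XK r M K)]
    have e : cc ((1 : XK r M K) : DirichletCharacter ℂ r) (q : ℕ) = 1 := if_pos rfl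
    rw [e, one_mul]
    rfl
  simp_rw [← prod_placesDX M K h7 hd hrS hj s] at h1
  have h2 := (LSeries_hasProd (EX K (j : K)) hs).2
  have h3 := (Equiv.sigmaFiberEquiv (below (K := K))).hasProd_iff.2 h2
  have h4 := h3.sigma (g := fun q : Nat.Primes =>
    ∏ v : {v : HeightOneSpectrum (𝓞 K) // below v = q}, LFD j s v.1) (fun q => hasProd_fintype _)
  exact h1.unique h4

end

end Pool.Agent.L0h4.TA
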