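import Pool.Agent.L0h4.TA.Uex
import Pool.Agent.L0h4.TA.Anx
import Pool.Agent.L0h4.TD.Fhx
import Pool.Agent.Y698.SG.Uj

/-!
# The formula modulo the primes above two for the twists of `X_0(49)` by all `D ≡ 1 mod 4`
-/

set_option autoImplicit false
set_option linter.unusedSectionVars false

namespace Pool.Agent.L0h4.TA

open Pool.Agent.Y698 Pool.Agent.Y698.SG Pool.Agent.L0h4.TW
open NumberField IsDedekindDomain IsCyclotomicExtension.Rat WithZero WeierstrassCurve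
open Pool.Agent.W189.NF Pool.Agent.TH936.CM
open Pool.Agent.H921R2.TatePole Pool.Agent.H82R3.EK
open Pool.Agent.TH841.SH.D (Pt act)
open Pool.Agent.TH841.NF.D (Sha shaCoc)

section
variable {r : ℕ} [hr : Fact r.Prime] (Mr : Type) [Field Mr] [NumberField Mr]
  [hMr : IsCyclotomicExtension {r} ℚ Mr] (K : Type) [Field K] [NumberField K] [Algebra K Mr]

include hMr in
/-- **the formula modulo the primes above two** -/
theorem level0X (hn : Module.finrank ℚ K = 2 ^ 0) (hir : Inq r) {Q P : Finset ℕ} {ϖ : ℕ → RR}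
    (hd : Dt Q P ϖ) (hrS : r ∉ Q ∪ P) {j : ℕ} (hj : ∏ q ∈ Q ∪ P, q = 1 + 4 * j) :
    ∃ Λ : ℂ → ℂ, Differentiable ℂ Λ ∧ (∀ s : ℂ, 2 < s.re → Λ s = (AX K j).LSeries s) ∧
      ∀ (Γ : Type) [LinearOrderedCommGroupWithZero Γ] (v : Valuation ℂ Γ), v 2 < 1 →
        v (quoT K j (Λ 1)) ≤ 1 ∧ (v (quoT K j (Λ 1)) = 1 ↔ NonSing Q P ϖ) := by
  classical
  obtain ⟨L, Ω, hL⟩ := exists_LD
  have htam := tam_prodX Mr K hn hir (fun q hq => ⟨hd.q q hq, fun h =>
    hrS (h ▸ Finset.mem_union_left _ hq)⟩) hd.p hj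
  obtain ⟨F, g1, g2, g4⟩ := val_X hd (by omega)
  have h2 := lseries_oneX Mr K hn hir hd.od hrS hj g2
  have hreal : (starRingEnd ℂ) (F 1) = F 1 := conj_val g1 (fun k => (AX K j).LFunction k) h2
  refine ⟨F, g1, h2, fun Γ _ v hv => ?_⟩
  have hΩ : v Ω ≠ 0 := (v.ne_zero_iff).2 hL.lat.ne
  have h20 : v 2 ≠ 0 := (v.ne_zero_iff).2 two_ne_zero
  by_cases hns : NonSing Q P ϖ
  · have k1 := val_allD (N := 1) hreal hL (fun Γ _ v hv => by
      rw [pow_one]
      exact (g4 Γ v L Ω hL hv).1 hns) v hv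
    have key : v (quoT K j (F 1)) = 1 := by
      rw [v_quoG Mr K hn hir htam hL (F 1) v hv, pow_zero, k1]
      exact div_self (mul_ne_zero (pow_ne_zero _ h20) (pow_ne_zero _ hΩ))
    exact ⟨key.le, iff_of_true key hns⟩
  · have k1 := val_all0 (N := 1) hreal hL (fun Γ _ v hv => by
      rw [pow_one]
      exact (g4 Γ v L Ω hL hv).2 hns) v hv
    have key : v (quoT K j (F 1)) < 1 := by
      rw [v_quoG Mr K hn hir htam hL (F 1) v hv, pow_zero]
      exact (div_lt_one₀ (zero_lt_iff.2 (mul_ne_zero (pow_ne_zero _ h20) (pow_ne_zero _ hΩ)))).2 k1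
    exact ⟨key.le, iff_of_false key.ne hns⟩

end

end Pool.Agent.L0h4.TA
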