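import Pool.Agent.L0h75.Ucx
import Pool.Agent.L0h4.TW.Val
import Pool.Agent.Y890.SG.Tam

/-!
# The Tamagawa numbers of the twists by all products of odd primes
-/

set_option autoImplicit false
set_option linter.unusedSectionVars false

namespace Pool.Agent.L0h4.TA

open Pool.Agent.Y698 Pool.Agent.Y698.SG Pool.Agent.Y890.SG Pool.Agent.L0h4.TW
open NumberField IsDedekindDomain IsCyclotomicExtension.Rat WithZero WeierstrassCurve
open Pool.Agent.H921R2.TatePole Pool.Agent.H82R3.EK
open Pool.Agent.TH841.SH.D (Pt act)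

section
variable {K : Type} [Field K] [NumberField K]

lemma val7_od (v : HeightOneSpectrum (𝓞 K)) {q : ℕ} (hq : Od q) (hv : (below v : ℕ) = q) :
    v.valuation K 7 = 1 := by
  have := val_one_of v (p := 7) (by norm_num) (by rw [hv]; exact hq.n7)
  exact_mod_cast this

lemma val2_od (v : HeightOneSpectrum (𝓞 K)) {q : ℕ} (hq : Od q) (hv : (below v : ℕ) = q) :
    v.valuation K 2 = 1 := by
  have h := hq.odd
  exact_mod_cast val_one_of v Nat.prime_two (by rw [hv]; omega)

/-- `-7` is a square at the places above the split primes -/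
lemma m7_splitX (v : HeightOneSpectrum (𝓞 K)) {q : ℕ} (hq : SpP q) (hv : (below v : ℕ) = q) :
    IsSquare (-7 : v.adicCompletion K) := by
  have : Fact q.Prime := ⟨hq.pr⟩
  have h7 := val7_od v hq.od hv
  have h2 := val2_od v hq.od hv
  have hmem : ((q : ℕ) : 𝓞 K) ∈ v.asIdeal := by
    have := (nm_eq v).2.2
    rwa [hv] at this
  obtain ⟨s, hs⟩ := hq.sq
  obtain ⟨k, rfl⟩ := ZMod.intCast_surjective s
  have h3 : (q : ℤ) ∣ -7 - k * k := by
    rw [← ZMod.intCast_zmod_eq_zero_iff_dvd _ q]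
    push_cast
    rw [hs]
    ring
  obtain ⟨t, ht⟩ := h3
  have h4 := sq_lift v h2 (m := -7) (y := (k : 𝓞 K)) (by
      have e : ((-7 : ℤ) : 𝓞 K) - (k : 𝓞 K) * (k : 𝓞 K) = (q : 𝓞 K) * (t : 𝓞 K) := by
        have := congrArg (fun z : ℤ => (z : 𝓞 K)) ht
        push_cast at this ⊢
        exact this
      rw [e]
      exact Ideal.mul_mem_right _ _ hmem) (by
      push_cast
      rw [Valuation.map_neg, h7])
  push_cast at h4
  exact h4

/-- degree one: `-7` is not a square -/
lemma m7_nsqX (v : HeightOneSpectrum (𝓞 K)) {q : ℕ} (hq : InP q) (hv : (below v : ℕ) = q)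
    (hd : deg v = 1) : ¬ IsSquare (-7 : v.adicCompletion K) := by
  rintro ⟨z, hz⟩
  have : Fact q.Prime := ⟨hq.pr⟩
  have h7 := val7_od v hq.od hv
  have h1 : (Valued.v : Valuation (v.adicCompletion K) ℤᵐ⁰) z = 1 := by
    have h3 := congrArg (Valued.v : Valuation (v.adicCompletion K) ℤᵐ⁰) hz
    rw [Valuation.map_neg, val_seven, h7, map_mul] at h3
    have hcz := cz_compl v
    have hde : DecidableEq (v.adicCompletion K) := Classical.decEq _
    obtain ⟨m, hm⟩ := exists_exp (Valued.v : Valuation (v.adicCompletion K) ℤᵐ⁰) (x := z) (by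
      rintro rfl
      rw [map_zero, mul_zero] at h3
      exact one_ne_zero h3)
    rw [hm, ← exp_add, ← exp_zero, exp_inj] at h3
    have : m = 0 := by omega
    rw [hm, this, exp_zero]
  obtain ⟨y, hy⟩ := Pool.Agent.H723R3.exists_approx_int (R := 𝓞 K) v
    ((HeightOneSpectrum.mem_adicCompletionIntegers (𝓞 K) K v).2 h1.le) 1
  rw [Units.val_one] at hy
  set Y : v.adicCompletion K := algebraMap (𝓞 K) (v.adicCompletion K) y with hY
  have e0 : Y = algebraMap K (v.adicCompletion K) (algebraMap (𝓞 K) K y) := by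
    rw [hY, ← IsScalarTower.algebraMap_apply]
  have h5 : ((-7 : ℤ) : 𝓞 K) - y * y ∈ v.asIdeal := by
    rw [← v.valuation_lt_one_iff_mem (K := K), ← val_emb]
    show (Valued.v : Valuation (v.adicCompletion K) ℤᵐ⁰) (algebraMap K (v.adicCompletion K)
      (algebraMap (𝓞 K) K (((-7 : ℤ) : 𝓞 K) - y * y))) < 1
    rw [map_sub, map_mul, map_sub, map_mul, ← e0, map_intCast, map_intCast]
    have e : ((-7 : ℤ) : v.adicCompletion K) - Y * Y = -((Y - z) * (Y - z + 2 * z)) := by
      push_cast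
      linear_combination hz
    rw [e, Valuation.map_neg, map_mul]
    refine mul_lt_one_of_lt_of_le hy ?_
    refine vadd hy.le (vmul ?_ h1.le)
    exact_mod_cast vnat (Valued.v : Valuation (v.adicCompletion K) ℤᵐ⁰) 2
  obtain ⟨f⟩ := exists_hom v hq.pr hv
  have hp := v.isPrime
  have hcard : Nat.card (𝓞 K ⧸ v.asIdeal) = q := by rw [card_quo, hd, pow_one, hv]
  have hfin : Finite (𝓞 K ⧸ v.asIdeal) := Nat.finite_of_card_ne_zero (by rw [hcard]; exact hq.pr.ne_zero)
  have hnt : Nontrivial (𝓞 K ⧸ v.asIdeal) := Ideal.Quotient.nontrivial_iff.2 v.isPrime.ne_top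
  have hbij : Function.Bijective f := by
    have h8 : Function.Injective f := f.injective
    refine (Nat.bijective_iff_injective_and_card f).2 ⟨h8, ?_⟩
    rw [hcard, Nat.card_zmod]
  obtain ⟨t, ht⟩ := hbij.2 (Ideal.Quotient.mk v.asIdeal y)
  apply hq.ns
  refine ⟨t, hbij.1 ?_⟩
  rw [map_mul, ht, ← map_mul]
  have h9 := (Ideal.Quotient.eq).2 h5
  rw [← h9, map_intCast, map_neg, map_ofNat]
  push_cast
  rfl

variable {j : ℕ}

theorem tamD_splitX (v : HeightOneSpectrum (𝓞 K)) {q : ℕ} (hq : SpP q) (hv : (below v : ℕ) = q)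
    (hD : v.valuation K (1 + 4 * (j : K)) = exp (-1)) :
    tam (AX K j) v = 4 := by
  have := cz_compl v
  have h7 := val7_od v hq.od hv
  have h2 := val2_od v hq.od hv
  have h2' : (Valued.v : Valuation (v.adicCompletion K) ℤᵐ⁰) 2 = 1 := by
    have h4 := val_emb v 2
    rw [h2, map_ofNat] at h4
    exact h4
  obtain ⟨z, hz⟩ := m7_splitX v hq hv
  exact @idxD_four _ _ _ _ _ _ (vchd K j (v.adicCompletion K)) (Classical.decEq _) Valued.v
    h2' (by rw [val_seven, h7]) (by rw [val_D, hD]) ((1 + z) / 2) (by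
      field_simp
      linear_combination -hz)

theorem tamD_inertX (v : HeightOneSpectrum (𝓞 K)) {q : ℕ} (hq : InP q) (hv : (below v : ℕ) = q)
    (hD : v.valuation K (1 + 4 * (j : K)) = exp (-1)) (hd : deg v = 1) :
    tam (AX K j) v = 2 := by
  have := cz_compl v
  have h7 := val7_od v hq.od hv
  have h2 := val2_od v hq.od hv
  have h2' : (Valued.v : Valuation (v.adicCompletion K) ℤᵐ⁰) 2 = 1 := by
    have h4 := val_emb v 2
    rw [h2, map_ofNat] at h4
    exact h4
  exact @idxD_twoX _ _ _ _ _ _ (vchd K j (v.adicCompletion K)) (Classical.decEq _) Valued.v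
    h2' (by rw [val_seven, h7]) (by rw [val_D, hD]) (hensel_sq v h2) (m7_nsqX v hq hv hd)

end

section

variable {r : ℕ} [hr : Fact r.Prime] (Mr : Type) [Field Mr] [NumberField Mr]
  [hMr : IsCyclotomicExtension {r} ℚ Mr] (K : Type) [Field K] [NumberField K] [Algebra K Mr]

include hMr in
/-- there is one place above each prime number -/
theorem one_place (hn : Module.finrank ℚ K = 2 ^ 0) {q : Nat.Primes} (hqr : (q : ℕ) ≠ r) :
    (∀ v : HeightOneSpectrum (𝓞 K), below v = q → deg v = 1) ∧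
      Fintype.card {v : HeightOneSpectrum (𝓞 K) // below v = q} = 1 := by
  have hGK : IsGalois ℚ K := isGalK r K (M := Mr)
  have hdvd : ¬ (q : ℕ) ∣ r := fun h => hqr ((Nat.prime_dvd_prime_iff_eq q.2 hr.out).1 h)
  have hcop : Nat.Coprime q r := (Nat.Prime.coprime_iff_not_dvd q.2).2 hdvd
  set φ : Gal(Mr/ℚ) := (galEquivZMod r Mr).symm (ZMod.unitOfCoprime q hcop) with hφd
  have hφ : ((galEquivZMod r Mr φ : (ZMod r)ˣ) : ZMod r) = (q : ℕ) := by
    rw [hφd, MulEquiv.apply_symm_apply, ZMod.coe_unitOfCoprime]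
  obtain ⟨g1, g2⟩ := split_sub (M := Mr) (K := K) (m := r) q hdvd hφ
  rw [hn, pow_zero] at g2
  have h2 : orderOf (φ.restrictNormal K) = 1 := Nat.eq_one_of_mul_eq_one_left g2
  refine ⟨fun v hv => by rw [g1 v hv, h2], ?_⟩
  exact Nat.eq_one_of_mul_eq_one_right g2

variable {S : Finset ℕ} {j : ℕ}

include hMr in
lemma unramSX (hS : ∀ q ∈ S, Od q ∧ q ≠ r) (v : HeightOneSpectrum (𝓞 K)) (q : ℕ) (hq : q ∈ S)
    (h : v.valuation K (q : K) < 1) : v.valuation K (q : K) = exp (-1) := by
  have hp := (hS q hq).1.pr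
  have hb : below v = ⟨q, hp⟩ := by
    apply below_eq_of_mem K (p := ⟨q, hp⟩) v
    have e2 : (q : K) = algebraMap (𝓞 K) K ((q : ℕ) : 𝓞 K) := by rw [map_natCast]
    rw [e2] at h
    exact (v.valuation_lt_one_iff_mem (K := K) _).1 h
  exact val_unram r Mr K ⟨q, hp⟩ (fun hdvd => (hS q hq).2
    ((Nat.prime_dvd_prime_iff_eq hp hr.out).1 hdvd)) v hb

include hMr in
/-- the valuation of `D` -/
theorem val_D_expX (hS : ∀ q ∈ S, Od q ∧ q ≠ r) (hj : ∏ q ∈ S, q = 1 + 4 * j)
    (v : HeightOneSpectrum (𝓞 K)) :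
    (v.valuation K (1 + 4 * (j : K)) = 1 ∧ ∀ q ∈ S, (below v : ℕ) ≠ q) ∨
      (v.valuation K (1 + 4 * (j : K)) = exp (-1) ∧ ∃ q ∈ S, (below v : ℕ) = q) := by
  have e : ((∏ q ∈ S, q : ℕ) : K) = 1 + 4 * (j : K) := by
    rw [hj]
    push_cast
    rfl
  have key : ∀ q ∈ S, v.valuation K (q : K) < 1 ↔ (below v : ℕ) = q := by
    intro q hq
    have hp := (hS q hq).1.pr
    constructor
    · intro h
      have e2 : (q : K) = algebraMap (𝓞 K) K ((q : ℕ) : 𝓞 K) := by rw [map_natCast]
      rw [e2] at h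
      rw [below_eq_of_mem K (p := ⟨q, hp⟩) v ((v.valuation_lt_one_iff_mem (K := K) _).1 h)]
    · intro h
      have hmem : ((q : ℕ) : 𝓞 K) ∈ v.asIdeal := by
        have := (nm_eq v).2.2
        rwa [h] at this
      have e2 : (q : K) = algebraMap (𝓞 K) K ((q : ℕ) : 𝓞 K) := by rw [map_natCast]
      rw [e2]
      exact (v.valuation_lt_one_iff_mem (K := K) _).2 hmem
  rcases val_prod_exp (w := v.valuation K) (fun q hq => (hS q hq).1.pr)
    (fun q hq => unramSX Mr K hS v q hq) with h | h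
  · left
    rw [e] at h
    refine ⟨h.1, fun q hq hb => ?_⟩
    have h1 := (key q hq).2 hb
    rw [h.2 q hq] at h1
    exact lt_irrefl _ h1
  · right
    rw [e] at h
    obtain ⟨h1, q, hq, h2⟩ := h
    refine ⟨h1, q, hq, (key q hq).1 ?_⟩
    rw [h2, ← exp_zero, exp_lt_exp]
    norm_num

include hMr in
/-- minimality -/
theorem minimal_EX (hin : ¬ IsSquare (-7 : ZMod r)) (hS : ∀ q ∈ S, Od q ∧ q ≠ r)
    (hj : ∏ q ∈ S, q = 1 + 4 * j) (v : HeightOneSpectrum (𝓞 K)) : MinimalAt (AX K j) v := by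
  have hΔ : v.valuation K (AX K j).Δ = v.valuation K 7 ^ 3 * v.valuation K (1 + 4 * (j : K)) ^ 6 := by
    have e : (AX K j).Δ = -(7 ^ 3 * (1 + 4 * (j : K)) ^ 6) := by
      rw [EX_Δ]
      ring
    rw [e, Valuation.map_neg, map_mul, map_pow, map_pow]
  by_cases hv : below v = p7
  · have h7 := val7_of_below Mr K hin v hv
    rcases val_D_expX Mr K hS hj v with h | h
    · apply minimal_of (k := 3) (by norm_num)
      rw [hΔ, h7, h.1, one_pow, mul_one, exp_cube]
      norm_num
    · obtain ⟨-, q, hq, h2⟩ := h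
      exfalso
      rw [hv] at h2
      have h3 : (7 : ℕ) = q := h2
      rw [← h3] at hq
      exact (hS 7 hq).1.not_seven (by norm_num)
  · have h7 := val7_of_not K v hv
    rcases val_D_expX Mr K hS hj v with h | h
    · apply minimal_of (k := 0) (by norm_num)
      rw [hΔ, h7, h.1, one_pow, one_pow, mul_one]
      simp
    · apply minimal_of (k := 6) (by norm_num)
      rw [hΔ, h7, h.1, one_pow, one_mul, ← exp_nsmul]
      simp


include hMr in
/-- **the product of the Tamagawa numbers** -/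
theorem tam_prodX (hn : Module.finrank ℚ K = 2 ^ 0) (hri : Inq r) {Q P : Finset ℕ} {j : ℕ}
    (hQ : ∀ q ∈ Q, InP q ∧ q ≠ r) (hP : ∀ p ∈ P, SpP p) (hj : ∏ q ∈ Q ∪ P, q = 1 + 4 * j) :
    ∏ᶠ v : HeightOneSpectrum (𝓞 K), tam (AX K j) v = 2 ^ (1 + (Q.card + 2 * P.card)) := by
  classical
  have hr4 := hri.m4
  have hin := hri.ns
  have hPr : ∀ p ∈ P, p ≠ r := by
    rintro p hp rfl
    exact hin (hP p hp).sq
  have hdisj : Disjoint Q P := by
    rw [Finset.disjoint_left]
    intro q h1 h2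
    exact (hQ q h1).1.ns (hP q h2).sq
  set S := Q ∪ P with hSd
  have hS' : ∀ q ∈ S, Od q ∧ q ≠ r := by
    intro q hq
    rcases Finset.mem_union.1 hq with h | h
    · exact ⟨(hQ q h).1.od, (hQ q h).2⟩
    · exact ⟨(hP q h).od, hPr q h⟩
  have h7S : 7 ∉ S := fun h => (hS' 7 h).1.not_seven (by norm_num)
  let T' : Finset Nat.Primes := S.attach.image fun q => ⟨q.1, (hS' q.1 q.2).1.pr⟩
  have hT'mem : ∀ p : Nat.Primes, p ∈ T' ↔ (p : ℕ) ∈ S := by
    intro p
    constructor
    · intro h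
      obtain ⟨q, -, rfl⟩ := Finset.mem_image.1 h
      exact q.2
    · intro h
      exact Finset.mem_image.2 ⟨⟨p, h⟩, Finset.mem_attach _ _, rfl⟩
  have h7T : p7 ∉ T' := fun h => h7S ((hT'mem p7).1 h)
  let fib : Nat.Primes → Finset (HeightOneSpectrum (𝓞 K)) := fun p =>
    (Finset.univ : Finset {v : HeightOneSpectrum (𝓞 K) // below v = p}).map
      (Function.Embedding.subtype _)
  have hfib : ∀ (p : Nat.Primes) (v : HeightOneSpectrum (𝓞 K)), v ∈ fib p ↔ below v = p := by
    intro p v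
    constructor
    · intro h
      obtain ⟨w, -, rfl⟩ := Finset.mem_map.1 h
      exact w.2
    · intro h
      exact Finset.mem_map.2 ⟨⟨v, h⟩, Finset.mem_univ _, rfl⟩
  let T : Finset Nat.Primes := insert p7 T'
  have hsupp : Function.mulSupport (fun v : HeightOneSpectrum (𝓞 K) => tam (AX K j) v) ⊆
      (T.biUnion fib : Finset (HeightOneSpectrum (𝓞 K))) := by
    intro v hv
    rw [Finset.mem_coe, Finset.mem_biUnion]
    refine ⟨below v, ?_, (hfib _ _).2 rfl⟩
    by_contra hT
    rw [Finset.mem_insert, hT'mem, not_or] at hT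
    apply hv
    rcases val_D_expX Mr K hS' hj v with h | h
    · exact tamD_good v (val7_of_not K v hT.1) h.1
    · obtain ⟨-, q, hq, h2⟩ := h
      exact absurd (by rw [h2]; exact hq) hT.2
  rw [finprod_eq_prod_of_mulSupport_subset _ hsupp, Finset.prod_biUnion]
  · have hPf : ∀ p : Nat.Primes, ∏ v ∈ fib p, tam (AX K j) v =
        ∏ v : {v : HeightOneSpectrum (𝓞 K) // below v = p}, tam (AX K j) v.1 := fun p =>
      Finset.prod_map _ _ _
    rw [Finset.prod_insert h7T, pow_add, pow_one]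
    congr 1
    · rw [hPf]
      obtain ⟨v, hv⟩ := exists_place (M := K) p7
      rw [Finset.prod_eq_single (⟨v, hv⟩ : {v : HeightOneSpectrum (𝓞 K) // below v = p7})]
      · rcases val_D_expX Mr K hS' hj v with h | h
        · exact tamD_seven v (val7_of_below Mr K hin v hv) h.1
        · obtain ⟨-, q, hq, h2⟩ := h
          exfalso
          apply h7S
          rw [hv] at h2
          have : (7 : ℕ) = q := h2
          rw [this]
          exact hq
      · rintro ⟨w, hw⟩ - hne
        exact absurd (Subtype.ext (unique_seven Mr K hr4 hin hn w v hw hv)) hne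
      · exact fun h => absurd (Finset.mem_univ _) h
    · -- the primes dividing `D`
      set G : ℕ → ℕ := fun q => if q ∈ Q then 2 ^ 1 else 2 ^ 2 with hG
      have hterm : ∀ p ∈ T', ∏ v ∈ fib p, tam (AX K j) v = G (p : ℕ) := by
        intro p hp
        have hpS := (hT'mem p).1 hp
        obtain ⟨hdeg, hone⟩ := one_place Mr K hn (q := p) (hS' p hpS).2
        have hval : ∀ v : HeightOneSpectrum (𝓞 K), below v = p →
            v.valuation K (1 + 4 * (j : K)) = exp (-1) := by
          intro v hv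
          rcases val_D_expX Mr K hS' hj v with h | h
          · exact absurd (by rw [hv]) (h.2 p hpS)
          · exact h.1
        by_cases hpQ : (p : ℕ) ∈ Q
        · have hGp : G (p : ℕ) = 2 ^ 1 := if_pos hpQ
          rw [hGp, hPf, Finset.prod_congr rfl (g := fun _ => 2), Finset.prod_const,
            Finset.card_univ, hone]
          rintro ⟨v, hv⟩ -
          exact tamD_inertX v (hQ p hpQ).1 (by rw [hv]) (hval v hv) (hdeg v hv)
        · have hpP : (p : ℕ) ∈ P := (Finset.mem_union.1 hpS).resolve_left hpQ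
          have hGp : G (p : ℕ) = 2 ^ 2 := if_neg hpQ
          rw [hGp, hPf, Finset.prod_congr rfl (g := fun _ => 4), Finset.prod_const,
            Finset.card_univ, hone]
          · norm_num
          rintro ⟨v, hv⟩ -
          exact tamD_splitX v (hP p hpP) (by rw [hv]) (hval v hv)
      have himg : ∏ x ∈ T', G (x : ℕ) = ∏ x ∈ S.attach, G x.1 := by
        show ∏ x ∈ S.attach.image (fun q => (⟨q.1, (hS' q.1 q.2).1.pr⟩ : Nat.Primes)), G (x : ℕ) = _
        exact Finset.prod_image (f := fun p : Nat.Primes => G (p : ℕ)) (fun a _ b _ hab =>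
          Subtype.ext (congrArg (fun p : Nat.Primes => (p : ℕ)) hab))
      rw [Finset.prod_congr rfl hterm, himg, Finset.prod_attach S G, hSd,
        Finset.prod_union hdisj]
      have hd := Finset.disjoint_left.1 hdisj
      have e1 : ∏ q ∈ Q, G q = 2 ^ Q.card := by
        rw [Finset.prod_congr rfl (g := fun _ => 2 ^ 1) (fun q hq => if_pos hq),
          Finset.prod_const, ← pow_mul, one_mul]
      have e2 : ∏ q ∈ P, G q = 2 ^ (2 * P.card) := by
        rw [Finset.prod_congr rfl (g := fun _ => 2 ^ 2)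
          (fun q hq => if_neg (fun h => hd h hq)), Finset.prod_const, ← pow_mul]
      rw [e1, e2, ← pow_add]
  · intro p _ q _ hpq
    rw [Function.onFun, Finset.disjoint_left]
    intro v h1 h2
    exact hpq (((hfib p v).1 h1).symm.trans ((hfib q v).1 h2))

end

end Pool.Agent.L0h4.TA
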